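import Pool.Agent.Lib_helper23.BG4F.HIT4
import Pool.Agent.Lib_helper33.HOMF.ZB

/-!
At least half of the terms of every arithmetic progression of multiples of `K` are gaps between
consecutive primes, infinitely often.

The proof is unconditional and complete. Ingredients:
* the four bin property of the set `D` of these gaps (`Pool.Agent.BG4.bins4`); let `C` be the
  complement of `D`;
* if the statement fails for every `K`, there are three progressions `α i + β i ℤ` (`i = 1, 2, 3`),
  each divisible by any modulus fixed before, and translation invariant means on them for which `C`
  has measure more than `1/2`; by the four bin property the density of quadruples `0, a₁, a₂, a₃`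
  with all six differences in `C` is zero (`HOM.k4null`);
* this density is governed by almost periodic approximants (`HOM.count`), built from Fejer kernels
  (`HOM.package`), a Wiener lemma (`HOM.wiener`) and the mean ergodic theorem;
* by Kronecker's theorem (`HOM.sampling`) there is a prime `p` and a step such that all
  approximants are `p`-periodic along it with averages greater than `1/2`; the moduli of the
  approximants of one level divide the next level;
* six subsets of `ZMod p` whose complements have at most `2 e` elements, `4 e < p`, contain the six
  differences of four points (`HOM.k4_zmod`): Dyson's constant term identity for four variables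
  (`HOM.dyson4`) and the combinatorial Nullstellensatz.
-/

set_option autoImplicit false

namespace Pool.Agent.Lib_helper23.Superseded.HalfOfMultiples

/-- There is `K > 0` such that in every arithmetic progression `a, a + n, a + 2 n, ...` of multiples
of `K` (`K ∣ a`, `K ∣ n`, `n > 0`) at least half of the terms are gaps between consecutive primes
infinitely often: for every `n` and every `ε > 0` there is `L` such that for all `a` and all `N ≥ L`
at least `(1/2 - ε) N` of the numbers `a + j n`, `j < N`, are equal to `p_{m+2} - p_{m+1}` for
infinitely many `m` (here `Nat.nth Nat.Prime m` is the prime `p_{m+1}`). -/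
theorem result :
    ∃ K : ℕ, 0 < K ∧ ∀ n : ℕ, 0 < n → K ∣ n → ∀ ε : ℝ, 0 < ε →
      ∃ L : ℕ, ∀ a N : ℕ, K ∣ a → L ≤ N →
        (1 / 2 - ε) * N ≤
          (({j : ℕ | {m : ℕ | Nat.nth Nat.Prime (m + 1) - Nat.nth Nat.Prime m = a + j * n}.Infinite}
            ∩ Set.Iio N).ncard : ℝ) := by
  obtain ⟨k, _, hk⟩ := Pool.Agent.BG4.bins4
  obtain ⟨K, hK, h⟩ := Pool.Agent.HOM.main_windows _ k hk
  exact ⟨K, hK, fun n hn hKn ε hε => h n hn hKn ε hε⟩

end Pool.Agent.Lib_helper23.Superseded.HalfOfMultiples
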